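import Mathlib
import Pool.Agent.W777.ST.AvQ
set_option autoImplicit false

/-! The second and fourth moments over abstract families of quadratic forms, and interpolation. -/

namespace Pool.Agent.N238.VP

open MeasureTheory Set Complex FourierTransform
open scoped ENNReal RealInnerProductSpace ComplexConjugate
open Pool.Agent.H153R4 Pool.Agent.W777.ST
open Pool.Agent.H438R2.RZ (marc24)

variable {n : ℕ} {Y : Type} [MeasurableSpace Y]

lemma ofLp_meas : Measurable fun h : E n => h.ofLp :=
  (PiLp.volume_preserving_ofLp (Fin n)).measurable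

lemma FK_meas {S : Y → Fin n → ℝ} (hS : Measurable S) {g : E n → ℂ} (hg : Measurable g) :
    Measurable fun q : E n × Y => 𝓕 (kk g q.1) (dd (S q.2) q.1) := by
  simp only [Real.fourier_eq]
  have h1 : Measurable fun r : (E n × Y) × E n =>
      Real.fourierChar (-⟪r.2, dd (S r.1.2) r.1.1⟫) • kk g r.1.1 r.2 := by
    have hdd : Measurable fun r : (E n × Y) × E n => dd (S r.1.2) r.1.1 := by
      unfold dd
      apply (PiLp.volume_preserving_toLp (Fin n)).measurable.comp
      rw [measurable_pi_iff]
      intro j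
      have hs : Measurable fun r : (E n × Y) × E n => S r.1.2 j :=
        (measurable_pi_apply j).comp (hS.comp (measurable_snd.comp measurable_fst))
      have hh : Measurable fun r : (E n × Y) × E n => r.1.1 j :=
        (measurable_pi_apply j).comp (ofLp_meas.comp (measurable_fst.comp measurable_fst))
      exact (measurable_const.mul hs).mul hh
    have hin : Measurable fun r : (E n × Y) × E n =>
        -⟪r.2, dd (S r.1.2) r.1.1⟫ := (measurable_snd.inner hdd).neg
    have hk : Measurable fun r : (E n × Y) × E n => kk g r.1.1 r.2 := by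
      unfold kk
      exact (hg.comp (measurable_snd.add (measurable_fst.comp measurable_fst))).mul
        (continuous_conj.measurable.comp (hg.comp measurable_snd))
    have hc : Measurable fun r : (E n × Y) × E n =>
        ((Real.fourierChar (-⟪r.2, dd (S r.1.2) r.1.1⟫) : Circle) : ℂ) :=
      (continuous_subtype_val.comp Real.continuous_fourierChar).measurable.comp hin
    exact hc.mul hk
  exact (h1.stronglyMeasurable.integral_prod_right' (ν := volume)).measurable

lemma Fch_meas {S : Y → Fin n → ℝ} (hS : Measurable S) {g : E n → ℂ} (hg : Measurable g) :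
    Measurable fun q : Y × E n => 𝓕 (ch (S q.1) g) q.2 := by
  simp only [Real.fourier_eq]
  have h1 : Measurable fun r : (Y × E n) × E n =>
      Real.fourierChar (-⟪r.2, r.1.2⟫) • ch (S r.1.1) g r.2 := by
    have hin : Measurable fun r : (Y × E n) × E n => -⟪r.2, r.1.2⟫ :=
      (measurable_snd.inner (measurable_snd.comp measurable_fst)).neg
    have hk : Measurable fun r : (Y × E n) × E n => ch (S r.1.1) g r.2 := by
      unfold ch
      have hs : ∀ j, Measurable fun r : (Y × E n) × E n => S r.1.1 j := fun j =>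
        (measurable_pi_apply j).comp (hS.comp (measurable_fst.comp measurable_fst))
      have hz : ∀ j, Measurable fun r : (Y × E n) × E n => r.2 j := fun j =>
        (measurable_pi_apply j).comp (ofLp_meas.comp measurable_snd)
      have hsum : Measurable fun r : (Y × E n) × E n =>
          -(2 * Real.pi * ∑ j, S r.1.1 j * r.2 j ^ 2) := by
        refine (measurable_const.mul (Finset.measurable_sum _ fun j _ => ?_)).neg
        exact (hs j).mul ((hz j).pow_const 2)
      exact (Complex.measurable_exp.comp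
        ((Complex.measurable_ofReal.comp hsum).mul measurable_const)).mul
        (hg.comp measurable_snd)
    have hc : Measurable fun r : (Y × E n) × E n =>
        ((Real.fourierChar (-⟪r.2, r.1.2⟫) : Circle) : ℂ) :=
      (continuous_subtype_val.comp Real.continuous_fourierChar).measurable.comp hin
    exact hc.mul hk
  exact (h1.stronglyMeasurable.integral_prod_right' (ν := volume)).measurable

/-- the fourth moment -/
theorem abs4 (ν : Measure Y) [SFinite ν] {S : Y → Fin n → ℝ} (hS : Measurable S) (K : ℝ≥0∞)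
    (β : ℝ) (hK : ∀ h z : E n, (∀ j, |h j| ≤ 2) → (∀ j, h j ≠ 0) →
      ∫⁻ p, ENNReal.ofReal (gm (z - dd (S p) h)) ∂ν ≤ K * ∏ j, ENNReal.ofReal (|h j| ^ (β - 1)))
    {M : ℝ} {g : E n → ℂ} (hg : BS M g) :
    ∫⁻ p, (∫⁻ x, ‖𝓕 (ch (S p) g) x‖ₑ ^ 4) ∂ν ≤ K * J4 n β * ∫⁻ z, ‖g z‖ₑ ^ 4 := by
  simp only [four_ch hg]
  have hm := (FK_meas hS hg.meas).enorm.pow_const 2
  rw [lintegral_lintegral_swap (by
    exact (hm.comp measurable_swap).aemeasurable)]
  set R : ℝ≥0∞ := ENNReal.ofReal (Real.exp (Real.pi * n) ^ 2) * ∫⁻ z, ‖g z‖ₑ ^ 4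
    with hR
  have hae : ∀ᵐ h : E n, ∫⁻ p, ‖𝓕 (kk g h) (dd (S p) h)‖ₑ ^ 2 ∂ν ≤
      (Q2 n).indicator (fun h => (K * ∏ j, ENNReal.ofReal (|h j| ^ (β - 1))) * R) h := by
    filter_upwards [ae_ne_zero n] with h hh0
    by_cases hh : h ∈ Q2 n
    · rw [indicator_of_mem hh]
      refine (loc_int2 ν (fun p => dd (S p) h) ?_ (K *
        ∏ j, ENNReal.ofReal (|h j| ^ (β - 1))) ?_ (hg.kk h)).trans ?_
      · unfold dd
        apply (PiLp.volume_preserving_toLp (Fin n)).measurable.comp
        rw [measurable_pi_iff]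
        intro j
        have hs : Measurable fun p : Y => S p j := (measurable_pi_apply j).comp hS
        exact (measurable_const.mul hs).mul measurable_const
      · intro z
        exact hK h z hh hh0
      · rw [hR]
        exact mul_le_mul' le_rfl (mul_le_mul' le_rfl (kk_sq hg.meas h))
    · rw [indicator_of_notMem hh]
      have h1 : ∃ j, 2 < |h j| := by
        by_contra hc
        push Not at hc
        exact hh hc
      have h2 : kk g h = 0 := by
        ext z
        exact kk_zero hg h h1 z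
      have h3 : ∀ y, 𝓕 (kk g h) y = 0 := by
        intro y
        rw [h2, Real.fourier_eq]
        simp
      simp [h3]
  refine (lintegral_mono_ae hae).trans ?_
  rw [lintegral_indicator (Q2_meas _), lintegral_mul_const _ (by fun_prop),
    lintegral_const_mul _ (by fun_prop)]
  apply le_of_eq
  rw [hR, J4]
  ring

/-- the integral of the `q`-th power -/
noncomputable def IQ (ν : Measure Y) (S : Y → Fin n → ℝ) (q : ℝ) (f : E n → ℂ) : ℝ≥0∞ :=
  ∫⁻ p, (∫⁻ x, ‖𝓕 (ch (S p) f) x‖ₑ ^ q) ∂ν

lemma F_split' {f : E n → ℂ} (hf : Measurable f) (hi : Integrable f) {S : Set (E n)}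
    (hS : MeasurableSet S) (s : Fin n → ℝ) (x : E n) : ‖𝓕 (ch s f) x‖ₑ ≤
      ‖𝓕 (ch s (S.indicator f)) x‖ₑ + ‖𝓕 (ch s (Sᶜ.indicator f)) x‖ₑ := by
  have hii : ∀ T : Set (E n), MeasurableSet T → Integrable (ch s (T.indicator f)) := fun T hT =>
    ch_int (hf.indicator hT) (hi.indicator hT) _
  have e : 𝓕 (ch s f) x = 𝓕 (ch s (S.indicator f)) x + 𝓕 (ch s (Sᶜ.indicator f)) x := by
    rw [Real.fourier_eq, Real.fourier_eq, Real.fourier_eq, ← integral_add
      ((Real.fourierIntegral_convergent_iff (μ := volume) x).2 (hii S hS))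
      ((Real.fourierIntegral_convergent_iff (μ := volume) x).2 (hii Sᶜ hS.compl))]
    apply integral_congr_ae
    refine ae_of_all _ fun z => ?_
    simp only
    rw [← smul_add]
    congr 1
    unfold ch
    rw [← mul_add]
    congr 1
    by_cases h : z ∈ S
    · rw [indicator_of_mem h, indicator_of_notMem (by simpa using h), add_zero]
    · rw [indicator_of_notMem h, indicator_of_mem (by simpa using h), zero_add]
  rw [e]
  exact enorm_add_le _ _

/-- integrability -/
lemma mem_of_q {q : ℝ} (hq : 1 ≤ q) {f : E n → ℂ} (hf : Measurable f)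
    (hs : ∀ z, z ∉ cube n → f z = 0) (hfin : ∫⁻ z, ‖f z‖ₑ ^ q ≠ ⊤) (p : ℝ≥0∞)
    (hp : p ≤ ENNReal.ofReal q) : MemLp f p volume := by
  have hvc : IsFiniteMeasure (volume.restrict (cube n)) :=
    ⟨by rw [Measure.restrict_apply_univ]; exact cube_vol n⟩
  have hind : (cube n).indicator f = f := by
    ext z
    by_cases hz : z ∈ cube n
    · rw [indicator_of_mem hz]
    · rw [indicator_of_notMem hz, hs z hz]
  have hLq : MemLp f (ENNReal.ofReal q) (volume.restrict (cube n)) := by
    refine ⟨hf.aestronglyMeasurable, ?_⟩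
    rw [eLpNorm_lt_top_iff_lintegral_rpow_enorm_lt_top
      (ENNReal.ofReal_pos.2 (by linarith)).ne' ENNReal.ofReal_ne_top,
      ENNReal.toReal_ofReal (by linarith)]
    exact (setLIntegral_le_lintegral _ _).trans_lt (lt_top_iff_ne_top.2 hfin)
  rw [← hind, memLp_indicator_iff_restrict (cube_meas n)]
  exact hLq.mono_exponent hp

/-- the interpolated estimate -/
theorem absq {q : ℝ} (hq2 : 2 < q) (hq4 : q < 4) : ∃ C : ℝ, 0 < C ∧
    ∀ {n : ℕ} {Y : Type} [MeasurableSpace Y] (ν : Measure Y) [SFinite ν] (S : Y → Fin n → ℝ),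
      Measurable S → ∀ (N K β : ℝ), 0 < N → 0 < K → 0 < β → ν univ ≤ ENNReal.ofReal N →
      (∀ h z : E n, (∀ j, |h j| ≤ 2) → (∀ j, h j ≠ 0) →
        ∫⁻ p, ENNReal.ofReal (gm (z - dd (S p) h)) ∂ν ≤
          ENNReal.ofReal K * ∏ j, ENNReal.ofReal (|h j| ^ (β - 1))) →
      ∀ (f : E n → ℂ), Measurable f → (∀ z, z ∉ cube n → f z = 0) →
        IQ ν S q f ≤ ENNReal.ofReal (C * N ^ ((4 - q) / 2) *
          (K * ((J4 n β).toReal + 1)) ^ ((q - 2) / 2)) * ∫⁻ z, ‖f z‖ₑ ^ q := by
  obtain ⟨C, hC, h⟩ := marc24 q hq2 hq4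
  refine ⟨C, hC, ?_⟩
  intro n Y _ ν _ S hS N K β hN hK hβ hν hKK f hf hs
  set J' : ℝ := (J4 n β).toReal + 1 with hJ'
  have hJ0 : 0 < J' := by
    have : 0 ≤ (J4 n β).toReal := ENNReal.toReal_nonneg
    linarith
  by_cases hfin : ∫⁻ z, ‖f z‖ₑ ^ q = ⊤
  · rw [hfin, ENNReal.mul_top (ENNReal.ofReal_pos.2 (by positivity)).ne']
    exact le_top
  have h2 : MemLp f 2 volume := mem_of_q (by linarith) hf hs hfin 2 (by
    rw [show (2 : ℝ≥0∞) = ENNReal.ofReal 2 by norm_num]
    exact ENNReal.ofReal_le_ofReal hq2.le)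
  have hint : Integrable f := memLp_one_iff_integrable.1 (mem_of_q (by linarith) hf hs hfin 1 (by
    rw [← ENNReal.ofReal_one]
    exact ENNReal.ofReal_le_ofReal (by linarith)))
  have hFm := Fch_meas hS hf
  have key := h (volume : Measure (E n)) (ν.prod (volume : Measure (E n)))
    (fun w => ‖𝓕 (ch (S w.1) f) w.2‖) (fun z => ‖f z‖) hFm.norm hf.norm
    (fun w => norm_nonneg _) (fun z => norm_nonneg _) N (K * J') hN (by positivity) ?_
  · simp only [ofReal_norm] at key
    have e1 : IQ ν S q f = ∫⁻ w, ‖𝓕 (ch (S w.1) f) w.2‖ₑ ^ q ∂(ν.prod volume) := by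
      rw [lintegral_prod _ (hFm.enorm.pow_const q).aemeasurable]
      rfl
    rw [e1]
    exact key
  · intro t ht
    have hSm : MeasurableSet {z : E n | t < ‖f z‖} := measurableSet_lt measurable_const hf.norm
    set A := {z : E n | t < ‖f z‖} with hSd
    have hSc : Aᶜ = {z : E n | ‖f z‖ ≤ t} := by
      ext z
      simp [hSd]
    have hmA := Fch_meas hS (hf.indicator hSm)
    have hmAc := Fch_meas hS (hf.indicator hSm.compl)
    refine ⟨fun w => ‖𝓕 (ch (S w.1) (A.indicator f)) w.2‖ₑ,
      fun w => ‖𝓕 (ch (S w.1) (Aᶜ.indicator f)) w.2‖ₑ, hmA.enorm, hmAc.enorm, ?_, ?_, ?_⟩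
    · refine ae_of_all _ fun w => ?_
      rw [ofReal_norm]
      exact F_split' hf hint hSm _ _
    · rw [lintegral_prod _ (hmA.enorm.pow_const 2).aemeasurable]
      simp only [two_gen (hf.indicator hSm) (hint.indicator hSm) (h2.indicator hSm)]
      rw [lintegral_const, mul_comm]
      have e3 : ∫⁻ z, ‖A.indicator f z‖ₑ ^ 2 = ∫⁻ z in A, ENNReal.ofReal ‖f z‖ ^ 2 := by
        rw [← lintegral_indicator hSm]
        apply lintegral_congr
        intro z
        by_cases hz : z ∈ A
        · rw [indicator_of_mem hz, indicator_of_mem hz, ofReal_norm]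
        · rw [indicator_of_notMem hz, indicator_of_notMem hz]
          simp
      rw [e3]
      gcongr
    · rw [lintegral_prod _ (hmAc.enorm.pow_const 4).aemeasurable]
      have hBS : BS t (Aᶜ.indicator f) := by
        refine ⟨hf.indicator hSm.compl, fun z => ?_, fun z hz => ?_⟩
        · by_cases hz : z ∈ Aᶜ
          · rw [indicator_of_mem hz]
            rw [hSc] at hz
            exact hz
          · rw [indicator_of_notMem hz, norm_zero]
            exact ht.le
        · by_cases hz2 : z ∈ Aᶜ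
          · rw [indicator_of_mem hz2]
            exact hs z hz
          · rw [indicator_of_notMem hz2]
      refine (abs4 ν hS (ENNReal.ofReal K) β hKK hBS).trans ?_
      have e3 : ∫⁻ z, ‖Aᶜ.indicator f z‖ₑ ^ 4 =
          ∫⁻ z in {z | ‖f z‖ ≤ t}, ENNReal.ofReal ‖f z‖ ^ 4 := by
        rw [← hSc, ← lintegral_indicator hSm.compl]
        apply lintegral_congr
        intro z
        by_cases hz : z ∈ Aᶜ
        · rw [indicator_of_mem hz, indicator_of_mem hz, ofReal_norm]
        · rw [indicator_of_notMem hz, indicator_of_notMem hz]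
          simp
      rw [e3, ENNReal.ofReal_mul hK.le]
      gcongr
      rw [hJ', ENNReal.ofReal_add ENNReal.toReal_nonneg zero_le_one,
        ENNReal.ofReal_toReal (J4_fin n β hβ).ne]
      exact le_self_add

end Pool.Agent.N238.VP
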