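import Mathlib
import Pool.Agent.N238.VP.A
set_option autoImplicit false

/-! Perturbations `ω(t) ∑ s_j ξ_j^2` of the phase. -/

namespace Pool.Agent.N238.VP

open MeasureTheory Set Complex FourierTransform
open scoped ENNReal RealInnerProductSpace ComplexConjugate
open Pool.Agent.H153R4 Pool.Agent.W777.ST

variable {m : ℕ}

/-- the coefficients of the form -/
def sw (ω : ℝ → ℝ) (p : ℝ × (Fin m → ℝ)) : Fin (m + 1) → ℝ :=
  Fin.cons p.1 fun j => p.1 + ω p.1 * p.2 j

lemma sw_meas {ω : ℝ → ℝ} (hω : Measurable ω) : Measurable (sw (m := m) ω) := by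
  rw [measurable_pi_iff]
  intro j
  refine Fin.cases ?_ (fun i => ?_) j
  · simpa [sw] using measurable_fst
  · simp only [sw, Fin.cons_succ]
    exact measurable_fst.add ((hω.comp measurable_fst).mul
      ((measurable_pi_apply i).comp measurable_snd))

lemma gm_dd (ω : ℝ → ℝ) (p : ℝ × (Fin m → ℝ)) (h z : E (m + 1)) :
    ENNReal.ofReal (gm (z - dd (sw ω p) h)) =
      ENNReal.ofReal (Real.exp (-Real.pi * (z 0 - (2 * h 0) * p.1) ^ 2)) *
        ∏ j : Fin m, ENNReal.ofReal (Real.exp (-Real.pi *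
          ((z j.succ - 2 * p.1 * h j.succ) - 2 * ω p.1 * p.2 j * h j.succ) ^ 2)) := by
  unfold gm
  rw [EuclideanSpace.norm_sq_eq, Fin.sum_univ_succ, mul_add, Real.exp_add,
    ENNReal.ofReal_mul (Real.exp_pos _).le, Finset.mul_sum, Real.exp_sum,
    ENNReal.ofReal_prod_of_nonneg (fun _ _ => (Real.exp_pos _).le)]
  congr 1
  · congr 3
    rw [Real.norm_eq_abs, sq_abs]
    simp only [PiLp.sub_apply, dd, sw, Fin.cons_zero]
    ring
  · apply Finset.prod_congr rfl
    intro j _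
    congr 3
    rw [Real.norm_eq_abs, sq_abs]
    simp only [PiLp.sub_apply, dd, sw, Fin.cons_succ]
    ring

/-- constant -/
noncomputable def KW (m : ℕ) (A α L T W β : ℝ) : ℝ :=
  2 * T ^ β * (A * cL L ^ m * W ^ (-(α - m * β)))

lemma nu_bound' (μ : Measure (Fin m → ℝ)) [SFinite μ] {ω : ℝ → ℝ} (hω : Measurable ω)
    (A α L T W β : ℝ) (hA : 0 ≤ A) (hL : 1 ≤ L) (hT : 1 ≤ T) (hW : 1 ≤ W)
    (hμ : ∀ (a : Fin m → ℝ) (r : ℝ), 0 < r → r ≤ 1 →
      μ (Icc a (fun j => a j + r)) ≤ ENNReal.ofReal (A * r ^ α))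
    (hβ0 : 0 ≤ β) (hβ1 : β ≤ 1) (hαβ : m * β ≤ α) (hωW : ∀ t ∈ ST T, W ≤ |ω t|)
    (h z : E (m + 1)) (hh : ∀ j, |h j| ≤ 2) (hh0 : ∀ j, h j ≠ 0) :
    ∫⁻ p, ENNReal.ofReal (gm (z - dd (sw ω p) h))
        ∂((volume.restrict (ST T)).prod (μ.restrict (Icc (fun _ => -L) (fun _ => L)))) ≤
      ENNReal.ofReal (KW m A α L T W β) * ∏ j, ENNReal.ofReal (|h j| ^ (β - 1)) := by
  have hT0 : 0 < T := by linarith
  have hW0 : 0 < W := by linarith
  have hcL : 0 ≤ cL L := by unfold cL; positivity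
  have hmeas : Measurable fun p : ℝ × (Fin m → ℝ) => ENNReal.ofReal (gm (z - dd (sw ω p) h)) := by
    simp only [gm_dd]
    have hωm : Measurable fun p : ℝ × (Fin m → ℝ) => ω p.1 := hω.comp measurable_fst
    fun_prop
  rw [lintegral_prod _ hmeas.aemeasurable]
  simp only [gm_dd]
  have hin : ∀ t ∈ ST T, ∫⁻ l in Icc (fun _ => -L) (fun _ => L),
      ENNReal.ofReal (Real.exp (-Real.pi * (z 0 - (2 * h 0) * t) ^ 2)) *
        ∏ j : Fin m, ENNReal.ofReal (Real.exp (-Real.pi *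
          ((z j.succ - 2 * t * h j.succ) - 2 * ω t * l j * h j.succ) ^ 2)) ∂μ ≤
      ENNReal.ofReal (Real.exp (-Real.pi * (z 0 - (2 * h 0) * t) ^ 2)) *
        (ENNReal.ofReal (A * cL L ^ m * W ^ (-(α - m * β))) *
          ∏ j : Fin m, ENNReal.ofReal (|h j.succ| ^ (β - 1))) := by
    intro t ht
    rw [lintegral_const_mul _ (by fun_prop)]
    gcongr
    have hw := hωW t ht
    have h1 := avg_l μ A α L |ω t| (ω t) β hL (hW.trans hw) hμ le_rfl
      (by linarith [abs_nonneg (ω t)]) (fun j => h j.succ)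
      (fun j => z j.succ - 2 * t * h j.succ) (fun j => hh _) (fun j => hh0 _) hβ0 hβ1
    refine h1.trans ?_
    have hwp : 0 < |ω t| := by linarith
    have h3 : ∏ j : Fin m, ENNReal.ofReal
          (Real.exp (64 * Real.pi) * (2 * L + 1) * (|ω t| ^ β * |h j.succ| ^ (β - 1))) =
        ENNReal.ofReal ((cL L * |ω t| ^ β) ^ m) *
          ∏ j : Fin m, ENNReal.ofReal (|h j.succ| ^ (β - 1)) := by
      have : ∀ j : Fin m, ENNReal.ofReal
          (Real.exp (64 * Real.pi) * (2 * L + 1) * (|ω t| ^ β * |h j.succ| ^ (β - 1))) =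
          ENNReal.ofReal (cL L * |ω t| ^ β) * ENNReal.ofReal (|h j.succ| ^ (β - 1)) := by
        intro j
        rw [← ENNReal.ofReal_mul (by positivity)]
        congr 1
        unfold cL
        ring
      simp only [this]
      rw [Finset.prod_mul_distrib, Finset.prod_const, Finset.card_univ, Fintype.card_fin,
        ENNReal.ofReal_pow (by positivity)]
    rw [h3, ← mul_assoc, ← ENNReal.ofReal_mul (by positivity)]
    refine mul_le_mul' (ENNReal.ofReal_le_ofReal ?_) le_rfl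
    have e1 : A * |ω t| ^ (-α) * (cL L * |ω t| ^ β) ^ m =
        A * cL L ^ m * |ω t| ^ (-(α - m * β)) := by
      rw [mul_pow, ← Real.rpow_natCast (|ω t| ^ β), ← Real.rpow_mul hwp.le]
      have e2 : |ω t| ^ (-(α - m * β)) = |ω t| ^ (-α) * |ω t| ^ (β * (m : ℝ)) := by
        rw [← Real.rpow_add hwp]
        congr 1
        ring
      rw [e2]
      ring
    rw [e1]
    have e3 : |ω t| ^ (-(α - m * β)) ≤ W ^ (-(α - m * β)) :=
      Real.rpow_le_rpow_of_nonpos hW0 hw (by linarith)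
    gcongr
  refine (setLIntegral_mono' (ST_meas T) hin).trans ?_
  rw [lintegral_mul_const _ (by fun_prop)]
  have h1 := gauss_set Real.pi (z 0) (2 * h 0) (2 * T) β Real.pi_pos
    (mul_ne_zero two_ne_zero (hh0 0)) (by positivity) hβ0 hβ1 (ST T) (ST_vol T hT0.le)
  refine (mul_le_mul' h1 le_rfl).trans ?_
  have hx0 : 0 < |h 0| := abs_pos.2 (hh0 0)
  have h2 : (2 * T) ^ β * (Real.sqrt (Real.pi / Real.pi) / |2 * h 0|) ^ (1 - β) ≤
      2 * T ^ β * |h 0| ^ (β - 1) := by
    rw [div_self Real.pi_ne_zero, Real.sqrt_one, abs_mul, abs_two]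
    have a1 : (2 * T) ^ β ≤ 2 * T ^ β := by
      rw [Real.mul_rpow (by norm_num) hT0.le]
      gcongr
      calc (2 : ℝ) ^ β ≤ 2 ^ (1 : ℝ) := Real.rpow_le_rpow_of_exponent_le (by norm_num) hβ1
        _ = 2 := Real.rpow_one _
    have a2 : (1 / (2 * |h 0|)) ^ (1 - β) ≤ |h 0| ^ (β - 1) := by
      calc (1 / (2 * |h 0|)) ^ (1 - β) ≤ (|h 0|⁻¹) ^ (1 - β) := by
            apply Real.rpow_le_rpow (by positivity) _ (by linarith)
            rw [one_div]
            apply inv_anti₀ hx0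
            linarith
        _ = _ := by
            rw [Real.inv_rpow hx0.le, ← Real.rpow_neg hx0.le]
            congr 1
            ring
    exact mul_le_mul a1 a2 (by positivity) (by positivity)
  refine (mul_le_mul' (ENNReal.ofReal_le_ofReal h2) le_rfl).trans (le_of_eq ?_)
  rw [Fin.prod_univ_succ]
  unfold KW
  rw [ENNReal.ofReal_mul (by positivity), ENNReal.ofReal_mul (p := 2 * T ^ β) (by positivity)]
  ring

end Pool.Agent.N238.VP
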