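import Mathlib
import Pool.Agent.N238.VP.B
set_option autoImplicit false

/-! Summation over dyadic time blocks. -/

namespace Pool.Agent.N238.VP

open MeasureTheory Set Complex FourierTransform
open scoped ENNReal RealInnerProductSpace ComplexConjugate
open Pool.Agent.H153R4 Pool.Agent.W777.ST

variable {m : ℕ}

/-- the measure on times and parameters -/
noncomputable def nuD (μ : Measure (Fin m → ℝ)) (L : ℝ) (D : Set ℝ) : Measure (ℝ × (Fin m → ℝ)) :=
  (volume.restrict D).prod (μ.restrict (Icc (fun _ => -L) (fun _ => L)))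

/-- the inner integral -/
noncomputable def HW (μ : Measure (Fin m → ℝ)) (L q : ℝ) (ω : ℝ → ℝ) (f : E (m + 1) → ℂ) (t : ℝ) :
    ℝ≥0∞ :=
  ∫⁻ l in Icc (fun _ => -L) (fun _ => L), (∫⁻ x, ‖𝓕 (ch (sw ω (t, l)) f) x‖ₑ ^ q) ∂μ

lemma IQ_eq (μ : Measure (Fin m → ℝ)) [SFinite μ] (L q : ℝ) {ω : ℝ → ℝ} (hω : Measurable ω)
    (D : Set ℝ) {f : E (m + 1) → ℂ} (hf : Measurable f) :
    IQ (nuD μ L D) (sw ω) q f = ∫⁻ t in D, HW μ L q ω f t := by
  unfold IQ HW nuD
  have h1 : Measurable fun p : ℝ × (Fin m → ℝ) => ∫⁻ x, ‖𝓕 (ch (sw ω p) f) x‖ₑ ^ q :=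
    ((Fch_meas (sw_meas hω) hf).enorm.pow_const q).lintegral_prod_right'
  rw [lintegral_prod _ h1.aemeasurable]

lemma IQ_univ (μ : Measure (Fin m → ℝ)) [SFinite μ] (L q : ℝ) {ω : ℝ → ℝ} (hω : Measurable ω)
    {f : E (m + 1) → ℂ} (hf : Measurable f) (T0 : ℝ) (hT0 : 1 ≤ T0) :
    IQ (nuD μ L univ) (sw ω) q f ≤ IQ (nuD μ L (Icc (-T0) T0)) (sw ω) q f +
      ∑' j : ℕ, IQ (nuD μ L (ST (T0 * 2 ^ j))) (sw ω) q f := by
  simp only [IQ_eq μ L q hω _ hf]
  have h0 : 0 < T0 := by linarith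
  have h1 : (univ : Set ℝ) ⊆ Icc (-T0) T0 ∪ ⋃ j : ℕ, ST (T0 * 2 ^ j) := by
    intro t _
    by_cases ht : |t| ≤ T0
    · left
      exact abs_le.1 ht
    · right
      push Not at ht
      have h2 : 1 ≤ |t| / T0 := by
        rw [one_le_div h0]
        exact ht.le
      obtain ⟨j, hj1, hj2⟩ := exists_nat_pow_near h2 (by norm_num : (1 : ℝ) < 2)
      rw [mem_iUnion]
      rw [le_div_iff₀ h0] at hj1
      rw [div_lt_iff₀ h0, pow_succ] at hj2
      refine ⟨j, ?_, ?_⟩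
      · linarith
      · linarith
  refine (lintegral_mono_set h1).trans ((lintegral_union_le _ _ _).trans ?_)
  gcongr
  exact lintegral_iUnion_le _ _

lemma sup_pow {n : ℕ} (q q0 : ℝ) (hq0 : 0 ≤ q0) (hq : q0 ≤ q) (s : Fin n → ℝ) (g : E n → ℂ)
    (x : E n) :
    ‖𝓕 (ch s g) x‖ₑ ^ q ≤ (∫⁻ z, ‖g z‖ₑ) ^ (q - q0) * ‖𝓕 (ch s g) x‖ₑ ^ q0 := by
  have h1 := sup_b (g := g) s x
  have e : ‖𝓕 (ch s g) x‖ₑ ^ q = ‖𝓕 (ch s g) x‖ₑ ^ (q - q0) * ‖𝓕 (ch s g) x‖ₑ ^ q0 := by
    rw [← ENNReal.rpow_add_of_nonneg _ _ (by linarith) hq0]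
    congr 1
    ring
  rw [e]
  exact mul_le_mul' (ENNReal.rpow_le_rpow h1 (by linarith)) le_rfl

lemma IQ_mono {n : ℕ} {Y : Type} [MeasurableSpace Y] (ν : Measure Y) [SFinite ν]
    {S : Y → Fin n → ℝ} (hS : Measurable S) {q q0 : ℝ} (hq0 : 0 ≤ q0) (hq : q0 ≤ q) {g : E n → ℂ}
    (hg : Measurable g) : IQ ν S q g ≤ (∫⁻ z, ‖g z‖ₑ) ^ (q - q0) * IQ ν S q0 g := by
  unfold IQ
  have h1 : Measurable fun p : Y => ∫⁻ x, ‖𝓕 (ch (S p) g) x‖ₑ ^ q0 :=
    ((Fch_meas hS hg).enorm.pow_const q0).lintegral_prod_right'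
  rw [← lintegral_const_mul _ h1]
  apply lintegral_mono
  intro p
  have h2 : Measurable fun x : E n => ‖𝓕 (ch (S p) g) x‖ₑ ^ q0 :=
    ((Fch_meas hS hg).comp (f := fun x : E n => (p, x)) (by fun_prop)).enorm.pow_const q0
  simp only
  rw [← lintegral_const_mul _ h2]
  exact lintegral_mono fun x => sup_pow q q0 hq0 hq (S p) g x

lemma choose_b (m : ℕ) (α γ q : ℝ) (hα : 0 < α) (hγ : 0 < γ) (hq : 2 + 2 / (1 + α * γ) < q) :
    ∃ β : ℝ, 0 < β ∧ β ≤ 1 ∧ m * β ≤ α ∧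
      (4 - q) / 2 + (β - γ * (α - m * β)) * ((q - 2) / 2) < 0 := by
  have hαγ : 0 < α * γ := mul_pos hα hγ
  have h1 : 0 < 1 + α * γ := by linarith
  have hq2 : 2 < q := by
    have : 0 < 2 / (1 + α * γ) := by positivity
    linarith
  have hδ : 0 < α * γ * (q - 2) - (4 - q) := by
    have h2 : 2 / (1 + α * γ) < q - 2 := by linarith
    rw [div_lt_iff₀ h1] at h2
    nlinarith
  set δ := α * γ * (q - 2) - (4 - q) with hδd
  have hq2' : 0 < q - 2 := by linarith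
  have hd : 0 < 2 * ((1 + γ * m) * (q - 2)) := by positivity
  have hm1 : (0 : ℝ) < m + 1 := by positivity
  refine ⟨min (min 1 (α / (m + 1))) (δ / (2 * ((1 + γ * m) * (q - 2)))),
    lt_min (lt_min one_pos (by positivity)) (by positivity),
    (min_le_left _ _).trans (min_le_left _ _), ?_, ?_⟩
  · set b := min (min 1 (α / (m + 1))) (δ / (2 * ((1 + γ * m) * (q - 2)))) with hb
    have hb1 : b ≤ α / (m + 1) := (min_le_left _ _).trans (min_le_right _ _)
    have hb0 : 0 ≤ b := le_min (le_min zero_le_one (by positivity)) (by positivity)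
    rw [le_div_iff₀ hm1] at hb1
    nlinarith
  · set b := min (min 1 (α / (m + 1))) (δ / (2 * ((1 + γ * m) * (q - 2)))) with hb
    have h3 : b * (2 * ((1 + γ * m) * (q - 2))) ≤ δ := by
      rw [← le_div_iff₀ hd]
      exact min_le_right _ _
    nlinarith

/-- condition on the perturbation -/
structure Per (c0 γ T0 : ℝ) (ω : ℝ → ℝ) : Prop where
  meas : Measurable ω
  one : ∀ t, T0 ≤ |t| → 1 ≤ |ω t|
  pow : ∀ t, T0 ≤ |t| → c0 * |t| ^ γ ≤ |ω t|

/-- the estimate, `q < 4` -/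
theorem low (m : ℕ) (α γ c0 T0 q : ℝ) (hα : 0 < α) (hγ : 0 < γ) (hc0 : 0 < c0) (hT0 : 1 ≤ T0)
    (hq : 2 + 2 / (1 + α * γ) < q) (hq4 : q < 4) (L A : ℝ) (hL : 1 ≤ L) (hA : 0 < A) :
    ∃ C : ℝ≥0∞, C < ⊤ ∧ ∀ μ : Measure (Fin m → ℝ), Frost μ A α → ∀ ω : ℝ → ℝ, Per c0 γ T0 ω →
      ∀ f : E (m + 1) → ℂ, Measurable f → (∀ z, z ∉ cube (m + 1) → f z = 0) →
        IQ (nuD μ L univ) (sw ω) q f ≤ C * ∫⁻ z, ‖f z‖ₑ ^ q := by
  obtain ⟨β, hβ0, hβ1, hβα, hβ⟩ := choose_b m α γ q hα hγ hq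
  have hαγ : 0 < α * γ := mul_pos hα hγ
  have hq2 : 2 < q := by
    have : 0 < 2 / (1 + α * γ) := by positivity
    linarith
  obtain ⟨C, hC, h⟩ := absq hq2 hq4
  set e : ℝ := (4 - q) / 2 + (β - γ * (α - m * β)) * ((q - 2) / 2) with he
  have hNL : 0 < NL m L := by unfold NL; positivity
  have hcL : 0 < cL L := by unfold cL; positivity
  set V : ℝ≥0∞ := volume (cube (m + 1)) with hV
  have hVf : V < ⊤ := cube_vol (m + 1)
  set J' : ℝ := (J4 (m + 1) β).toReal + 1 with hJ'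
  have hJ0 : 0 < J' := by
    have : 0 ≤ (J4 (m + 1) β).toReal := ENNReal.toReal_nonneg
    linarith
  have hT00 : 0 < T0 := by linarith
  set D : ℝ := C * (2 * (NL m L * A)) ^ ((4 - q) / 2) *
    (2 * (A * cL L ^ m * c0 ^ (-(α - m * β))) * J') ^ ((q - 2) / 2) * T0 ^ e with hD
  have hD0 : 0 < D := by positivity
  set x : ℝ≥0∞ := ENNReal.ofReal ((2 : ℝ) ^ e) with hx
  have hx1 : x < 1 := by
    rw [hx, ENNReal.ofReal_lt_one]
    exact Real.rpow_lt_one_of_one_lt_of_neg (by norm_num) hβ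
  have hsum : ∑' j : ℕ, ENNReal.ofReal (D * ((2 : ℝ) ^ j) ^ e) =
      ENNReal.ofReal D * (1 - x)⁻¹ := by
    rw [← ENNReal.tsum_geometric, ← ENNReal.tsum_mul_left]
    congr 1
    ext j
    rw [ENNReal.ofReal_mul hD0.le, hx, ← ENNReal.ofReal_pow (by positivity)]
    congr 2
    rw [← Real.rpow_natCast, ← Real.rpow_mul (by norm_num), mul_comm, Real.rpow_mul (by norm_num),
      Real.rpow_natCast]
  refine ⟨ENNReal.ofReal (2 * T0) * ENNReal.ofReal (NL m L * A) * V ^ (q - 2) +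
    ENNReal.ofReal D * (1 - x)⁻¹, ?_, ?_⟩
  · apply ENNReal.add_lt_top.2 ⟨?_, ?_⟩
    · exact ENNReal.mul_lt_top (ENNReal.mul_lt_top ENNReal.ofReal_lt_top ENNReal.ofReal_lt_top)
        (ENNReal.rpow_lt_top_of_nonneg (by linarith) hVf.ne)
    · refine ENNReal.mul_lt_top ENNReal.ofReal_lt_top ?_
      rw [ENNReal.inv_lt_top]
      exact tsub_pos_of_lt hx1
  intro μ hμ ω hω f hf hs
  have := hμ.locfin
  refine (IQ_univ μ L q hω.meas hf T0 hT0).trans ?_
  rw [add_mul]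
  have hmass : ∀ S : Set ℝ, nuD μ L S univ = volume S * μ (Icc (fun _ => -L) (fun _ => L)) := by
    intro S
    unfold nuD
    rw [← univ_prod_univ, Measure.prod_prod, Measure.restrict_apply_univ,
      Measure.restrict_apply_univ]
  apply add_le_add
  · by_cases hfin : ∫⁻ z, ‖f z‖ₑ ^ q = ⊤
    · by_cases hc : ENNReal.ofReal (2 * T0) * ENNReal.ofReal (NL m L * A) * V ^ (q - 2) = 0
      · exfalso
        have hV0 : V ≠ 0 := by
          intro h0
          have h1 : ∫⁻ z, ‖f z‖ₑ ^ q = ∫⁻ z in cube (m + 1), ‖f z‖ₑ ^ q := by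
            rw [← lintegral_indicator (cube_meas _)]
            apply lintegral_congr
            intro z
            by_cases hz : z ∈ cube (m + 1)
            · rw [indicator_of_mem hz]
            · rw [indicator_of_notMem hz, hs z hz, enorm_zero,
                ENNReal.zero_rpow_of_pos (by linarith)]
          rw [h1, Measure.restrict_eq_zero.2 (by rw [← hV]; exact h0), lintegral_zero_measure] at hfin
          exact absurd hfin (by simp)
        have hp : 0 < ENNReal.ofReal (2 * T0) * ENNReal.ofReal (NL m L * A) * V ^ (q - 2) := by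
          refine ENNReal.mul_pos (mul_ne_zero ?_ ?_) ?_
          · exact (ENNReal.ofReal_pos.2 (by positivity)).ne'
          · exact (ENNReal.ofReal_pos.2 (by positivity)).ne'
          · exact (ENNReal.rpow_pos (pos_iff_ne_zero.2 hV0) hVf.ne).ne'
        exact hp.ne' hc
      · rw [hfin, ENNReal.mul_top hc]
        exact le_top
    have h2 : MemLp f 2 volume := mem_of_q (by linarith) hf hs hfin 2 (by
      rw [show (2 : ℝ≥0∞) = ENNReal.ofReal 2 by norm_num]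
      exact ENNReal.ofReal_le_ofReal hq2.le)
    have hint : Integrable f := memLp_one_iff_integrable.1
      (mem_of_q (by linarith) hf hs hfin 1 (by
        rw [← ENNReal.ofReal_one]
        exact ENNReal.ofReal_le_ofReal (by linarith)))
    have : SFinite (nuD μ L (Icc (-T0) T0)) := by unfold nuD; infer_instance
    refine (IQ_mono (nuD μ L (Icc (-T0) T0)) (sw_meas hω.meas) (by norm_num : (0:ℝ) ≤ 2) hq2.le
      hf).trans ?_
    have h3 : IQ (nuD μ L (Icc (-T0) T0)) (sw ω) 2 f ≤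
        ENNReal.ofReal (2 * T0) * ENNReal.ofReal (NL m L * A) * ∫⁻ z, ‖f z‖ₑ ^ (2:ℝ) := by
      unfold IQ
      simp only [ENNReal.rpow_ofNat, two_gen hf hint h2]
      rw [lintegral_const, mul_comm, hmass]
      gcongr
      · rw [Real.volume_Icc]
        apply ENNReal.ofReal_le_ofReal
        linarith
      · exact hμ.mass L
    calc (∫⁻ z, ‖f z‖ₑ) ^ (q - 2) * IQ (nuD μ L (Icc (-T0) T0)) (sw ω) 2 f
        ≤ (∫⁻ z, ‖f z‖ₑ) ^ (q - 2) * (ENNReal.ofReal (2 * T0) * ENNReal.ofReal (NL m L * A) *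
        ∫⁻ z, ‖f z‖ₑ ^ (2:ℝ)) := mul_le_mul' le_rfl h3
      _ = ENNReal.ofReal (2 * T0) * ENNReal.ofReal (NL m L * A) *
        ((∫⁻ z, ‖f z‖ₑ) ^ (q - 2) * ∫⁻ z, ‖f z‖ₑ ^ (2:ℝ)) := by ring
      _ ≤ ENNReal.ofReal (2 * T0) * ENNReal.ofReal (NL m L * A) *
          (V ^ (q - 2) * ∫⁻ z, ‖f z‖ₑ ^ q) :=
        mul_le_mul' le_rfl (hol (by norm_num) hq2.le hf hs)
      _ = _ := by ring
  · rw [← hsum, ← ENNReal.tsum_mul_right]
    apply ENNReal.tsum_le_tsum
    intro j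
    set T : ℝ := T0 * 2 ^ j with hT
    have h2j : (1:ℝ) ≤ 2 ^ j := one_le_pow₀ (by norm_num)
    have hTT0 : T0 ≤ T := by
      rw [hT]
      nlinarith
    have hT1 : 1 ≤ T := by linarith
    have hTp : 0 < T := by linarith
    set W : ℝ := max 1 (c0 * T ^ γ) with hW
    have hW1 : 1 ≤ W := le_max_left _ _
    have hWω : ∀ t ∈ ST T, W ≤ |ω t| := by
      intro t ht
      have ht0 : T0 ≤ |t| := hTT0.trans ht.1
      refine max_le (hω.one t ht0) (le_trans ?_ (hω.pow t ht0))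
      gcongr
      exact ht.1
    have : SFinite (nuD μ L (ST T)) := by unfold nuD; infer_instance
    have hKW : 0 < KW m A α L T W β := by
      unfold KW
      positivity
    have key := h (nuD μ L (ST T)) (sw ω) (sw_meas hω.meas) (2 * T * (NL m L * A))
      (KW m A α L T W β) β (by positivity) hKW hβ0 ?_ ?_ f hf hs
    · refine key.trans (mul_le_mul' (ENNReal.ofReal_le_ofReal ?_) le_rfl)
      have hαβ : 0 ≤ α - m * β := by linarith
      have a1 : KW m A α L T W β ≤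
          (2 * (A * cL L ^ m * c0 ^ (-(α - m * β)))) * T ^ (β - γ * (α - m * β)) := by
        unfold KW
        have a2 : W ^ (-(α - m * β)) ≤ (c0 * T ^ γ) ^ (-(α - m * β)) :=
          Real.rpow_le_rpow_of_nonpos (by positivity) (le_max_right _ _) (by linarith)
        have a3 : (c0 * T ^ γ) ^ (-(α - m * β)) = c0 ^ (-(α - m * β)) * T ^ (-(γ * (α - m * β))) := by
          rw [Real.mul_rpow hc0.le (by positivity), ← Real.rpow_mul hTp.le]
          congr 2
          ring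
        rw [a3] at a2
        have a4 : T ^ (β - γ * (α - m * β)) = T ^ β * T ^ (-(γ * (α - m * β))) := by
          rw [← Real.rpow_add hTp]
          congr 1
        rw [a4]
        calc 2 * T ^ β * (A * cL L ^ m * W ^ (-(α - m * β)))
            ≤ 2 * T ^ β * (A * cL L ^ m * (c0 ^ (-(α - m * β)) * T ^ (-(γ * (α - m * β))))) := by
              gcongr
          _ = _ := by ring
      calc C * (2 * T * (NL m L * A)) ^ ((4 - q) / 2) *
            (KW m A α L T W β * ((J4 (m + 1) β).toReal + 1)) ^ ((q - 2) / 2)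
          ≤ C * (2 * T * (NL m L * A)) ^ ((4 - q) / 2) *
            (((2 * (A * cL L ^ m * c0 ^ (-(α - m * β)))) * T ^ (β - γ * (α - m * β))) *
              J') ^ ((q - 2) / 2) := by
            gcongr
        _ = C * (2 * (NL m L * A)) ^ ((4 - q) / 2) *
            (2 * (A * cL L ^ m * c0 ^ (-(α - m * β))) * J') ^ ((q - 2) / 2) * T ^ e := by
            have b1 : 2 * T * (NL m L * A) = (2 * (NL m L * A)) * T := by ring
            have b2 : ((2 * (A * cL L ^ m * c0 ^ (-(α - m * β)))) * T ^ (β - γ * (α - m * β))) * J' =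
              (2 * (A * cL L ^ m * c0 ^ (-(α - m * β))) * J') * T ^ (β - γ * (α - m * β)) := by ring
            rw [b1, b2, Real.mul_rpow (by positivity) hTp.le,
              Real.mul_rpow (y := T ^ (β - γ * (α - m * β))) (by positivity) (by positivity),
              ← Real.rpow_mul hTp.le, he, Real.rpow_add hTp]
            ring
        _ = D * ((2 : ℝ) ^ j) ^ e := by
            rw [hT, Real.mul_rpow hT00.le (by positivity), hD]
            ring
    · rw [hmass, ENNReal.ofReal_mul (by positivity)]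
      gcongr
      · exact ST_vol T hTp.le
      · exact hμ.mass L
    · intro h' z hh hh0
      exact nu_bound' μ hω.meas A α L T W β hA.le hL hT1 hW1 hμ hβ0.le hβ1 hβα hWω h' z hh hh0

/-- the estimate, all `q` -/
theorem all (m : ℕ) (α γ c0 T0 q : ℝ) (hα : 0 < α) (hγ : 0 < γ) (hc0 : 0 < c0) (hT0 : 1 ≤ T0)
    (hq : 2 + 2 / (1 + α * γ) < q) (L A : ℝ) (hL : 1 ≤ L) (hA : 0 < A) :
    ∃ C : ℝ≥0∞, C < ⊤ ∧ ∀ μ : Measure (Fin m → ℝ), Frost μ A α → ∀ ω : ℝ → ℝ, Per c0 γ T0 ω →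
      ∀ f : E (m + 1) → ℂ, Measurable f → (∀ z, z ∉ cube (m + 1) → f z = 0) →
        IQ (nuD μ L univ) (sw ω) q f ≤ C * ∫⁻ z, ‖f z‖ₑ ^ q := by
  rcases lt_or_ge q 4 with hq4 | hq4
  · exact low m α γ c0 T0 q hα hγ hc0 hT0 hq hq4 L A hL hA
  · have hαγ : 0 < α * γ := mul_pos hα hγ
    have h4 : 2 + 2 / (1 + α * γ) < 4 := by
      have h1 : 0 < 1 + α * γ := by linarith
      have : 2 / (1 + α * γ) < 2 := by
        rw [div_lt_iff₀ h1]
        linarith
      linarith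
    obtain ⟨q0, hq01, hq02⟩ := exists_between h4
    have hq00 : 2 < q0 := by
      have : 0 < 2 / (1 + α * γ) := by positivity
      linarith
    obtain ⟨C, hC, h⟩ := low m α γ c0 T0 q0 hα hγ hc0 hT0 hq01 hq02 L A hL hA
    refine ⟨C * (volume (cube (m + 1))) ^ (q - q0), ENNReal.mul_lt_top hC
      (ENNReal.rpow_lt_top_of_nonneg (by linarith) (cube_vol _).ne), ?_⟩
    intro μ hμ ω hω f hf hs
    have := hμ.locfin
    have : SFinite (nuD μ L univ) := by unfold nuD; infer_instance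
    refine (IQ_mono (nuD μ L univ) (sw_meas hω.meas) (by linarith : (0:ℝ) ≤ q0)
      (by linarith) hf).trans ?_
    calc (∫⁻ z, ‖f z‖ₑ) ^ (q - q0) * IQ (nuD μ L univ) (sw ω) q0 f
        ≤ (∫⁻ z, ‖f z‖ₑ) ^ (q - q0) * (C * ∫⁻ z, ‖f z‖ₑ ^ q0) :=
          mul_le_mul' le_rfl (h μ hμ ω hω f hf hs)
      _ = C * ((∫⁻ z, ‖f z‖ₑ) ^ (q - q0) * ∫⁻ z, ‖f z‖ₑ ^ q0) := by ring
      _ ≤ C * ((volume (cube (m + 1))) ^ (q - q0) * ∫⁻ z, ‖f z‖ₑ ^ q) :=
          mul_le_mul' le_rfl (hol (by linarith) (by linarith) hf hs)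
      _ = _ := by ring

end Pool.Agent.N238.VP
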